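import Mathlib
import Pool.Agent.Helper95.FP.L2
import Pool.Agent.Helper95.FP.Ext

set_option autoImplicit false

open MeasureTheory Filter Topology

namespace Pool.Agent.Results.MP_e27144_an.FixedPoint

universe u

/-- `μ` is invariant under multiplication by `2` and by `3`. -/
def Invariant (μ : Measure UnitAddCircle) : Prop :=
  MeasurePreserving (fun x : UnitAddCircle => 2 • x) μ μ ∧
    MeasurePreserving (fun x : UnitAddCircle => 3 • x) μ μ

/-- The compact space of invariant probability measures, with the weak topology. -/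
abbrev InvariantMeasures : Type :=
  {μ : ProbabilityMeasure UnitAddCircle // Invariant (μ : Measure UnitAddCircle)}

/-- The counterexamples to Furstenberg's conjecture: the atomless invariant probability measures
which are not Lebesgue measure. -/
def Counterexamples : Set InvariantMeasures :=
  {μ | (∀ x, (μ.1 : Measure UnitAddCircle) {x} = 0) ∧ (μ.1 : Measure UnitAddCircle) ≠ volume}

/-- Furstenberg's conjecture: Lebesgue measure is the only atomless invariant probability
measure. -/
def Furstenberg : Prop :=
  ∀ μ : Measure UnitAddCircle, IsProbabilityMeasure μ → (∀ x, μ {x} = 0) → Invariant μ → μ = volume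

/-- The fixed point property of the group `G = ⟨a, b, t | a b = b a, a t a⁻¹ = t ^ 2,
b t b⁻¹ = t ^ 3⟩`, that is `ℤ[1/6] ⋊ ℤ²`: every action of `G` by isometries on a real Hilbert space
for which `a` and `b` have a common fixed point has a global fixed point. -/
def GroupFixedPoints : Prop :=
  ∀ (H : Type u) [NormedAddCommGroup H] [InnerProductSpace ℝ H] [CompleteSpace H]
    (a b t : H ≃ᵢ H), a * b = b * a → a * t * a⁻¹ = t ^ 2 → b * t * b⁻¹ = t ^ 3 →
      (∃ v, a v = v ∧ b v = v) → ∃ w, a w = w ∧ b w = w ∧ t w = w

/-- The same for distance preserving maps `a`, `b` which need not be surjective and need not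
commute: `t` has a fixed point. -/
def MapFixedPoints : Prop :=
  ∀ (H : Type) [NormedAddCommGroup H] [InnerProductSpace ℝ H] [CompleteSpace H]
    (a b : H → H) (t : H ≃ᵢ H), Isometry a → Isometry b → (∀ x, a (t x) = t (t (a x))) →
      (∀ x, b (t x) = t (t (t (b x)))) → (∃ v, a v = v ∧ b v = v) → ∃ w, t w = w

/-- Every metric `f (m - n)` on the integers which is induced by a map into a Hilbert space and
satisfies `f (2 n) = f (n) = f (3 n)` is bounded. -/
def MetricsBounded : Prop :=
  ∀ (H : Type) [NormedAddCommGroup H] [InnerProductSpace ℝ H] (u : ℤ → H) (f : ℤ → ℝ),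
    (∀ m n, dist (u m) (u n) = f (m - n)) → (∀ n, f (2 * n) = f n ∧ f (3 * n) = f n) →
      ∃ C, ∀ n, f n ≤ C

/-- The invariant probability measures without mass at `0` have mean distance to `0` bounded
below. -/
def GapAtZero : Prop :=
  ∃ ε : ℝ, 0 < ε ∧ ∀ ν : InvariantMeasures, (ν.1 : Measure UnitAddCircle) {0} = 0 →
    ε ≤ ∫ x, ‖x‖ ∂(ν.1 : Measure UnitAddCircle)

lemma furst_iff : Furstenberg → Counterexamples = ∅ := by
  intro h
  ext μ
  simp only [Set.mem_empty_iff_false, iff_false]
  rintro ⟨h1, h2⟩
  exact h2 (h _ inferInstance h1 μ.2)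

lemma nogap_iff : ¬ GapAtZero ↔ Pool.Agent.H635F.NoGap := by
  unfold GapAtZero
  constructor
  · intro H c hc
    push Not at H
    have hc1 : min c 1 ≠ 0 := by
      rw [← pos_iff_ne_zero, lt_min_iff]
      exact ⟨pos_iff_ne_zero.2 hc, one_pos⟩
    have hct : min c 1 ≠ ⊤ := ne_top_of_le_ne_top ENNReal.one_ne_top (min_le_right _ _)
    obtain ⟨ν, h1, h2⟩ := H (min c 1).toReal (ENNReal.toReal_pos hc1 hct)
    refine ⟨ν.1, (Pool.Agent.H635F.inv_iff _).2 ν.2, h1, ?_⟩
    rw [Pool.Agent.H635F.integral_norm_eq] at h2
    exact ((ENNReal.toReal_le_toReal (Pool.Agent.H635F.J_ne_top _) hct).1 h2.le).trans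
      (min_le_left _ _)
  · rintro H ⟨ε, hε, hgap⟩
    obtain ⟨ν, h0, h1, h2⟩ := H (ENNReal.ofReal (ε / 2)) (by simpa using hε)
    have h3 := hgap ⟨ν, (Pool.Agent.H635F.inv_iff _).1 h0⟩ h1
    rw [Pool.Agent.H635F.integral_norm_eq] at h3
    have h4 := (ENNReal.toReal_mono ENNReal.ofReal_ne_top h2).trans_eq
      (ENNReal.toReal_ofReal (by positivity))
    linarith

/-- **Furstenberg's conjecture and fixed points of the solvable group `ℤ[1/6] ⋊ ℤ²`.**
The group `G = ℤ[1/6] ⋊ ℤ²` is generated by `a`, `b`, `t` with the relations `a b = b a`,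
`a t a⁻¹ = t ^ 2`, `b t b⁻¹ = t ^ 3`; here `a`, `b` generate `ℤ²`.  The following are equivalent:
(1) if `G` acts by isometries on a Hilbert space and `ℤ²` fixes a point, then `G` fixes a point;
(2) if `a`, `b` are distance preserving maps of a Hilbert space (not necessarily commuting or
surjective) with a common fixed point and `t` is a bijective isometry with `a t = t ^ 2 a` and
`b t = t ^ 3 b`, then `t` has a fixed point;
(3) every translation invariant Hilbert space metric `d (m, n) = f (m - n)` on the integers with
`f (2 n) = f (n) = f (3 n)` is bounded;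
(4) there is a gap at the point mass at `0`: a positive lower bound for the mean distance to `0`
of the invariant probability measures without mass at `0`;
(5) a generic invariant probability measure (in the sense of Baire category) is not a
counterexample to Furstenberg's conjecture;
(6) the counterexamples are not dense in the space of invariant probability measures.
In particular Furstenberg's conjecture implies the fixed point theorem for `G`. -/
theorem result : List.TFAE [GroupFixedPoints.{0}, MapFixedPoints, MetricsBounded, GapAtZero,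
    Counterexamples ∉ residual InvariantMeasures, ¬ Dense Counterexamples] ∧
    (Furstenberg → GroupFixedPoints.{u}) := by
  have hdich := Pool.Agent.H635F.dichotomy
  have hce : Counterexamples = Pool.Agent.H635F.CE := rfl
  have h45 : Pool.Agent.H635F.NoGap ↔ Counterexamples ∈ residual InvariantMeasures := hdich.out 0 3
  have h46 : Pool.Agent.H635F.NoGap ↔ Dense Counterexamples := hdich.out 0 2
  have hbdd : ∀ (H : Type u) [NormedAddCommGroup H] [InnerProductSpace ℝ H],
      ¬ Pool.Agent.H635F.NoGap → Pool.Agent.Helper95.FP.Bdd H := by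
    intro H _ _ hG u f hf h23
    by_contra hcon
    push Not at hcon
    exact hG (Pool.Agent.Helper95.FP.noGap_of_unbounded u f hf (fun n => (h23 n).1)
      (fun n => (h23 n).2) hcon)
  have hconj2 : ∀ {G : Type u} [Group G] (a t : G) (k : ℕ), a * t * a⁻¹ = t ^ k → a * t = t ^ k * a := by
    intro G _ a t k h
    rw [← h, inv_mul_cancel_right]
  have hconj1 : ∀ {G : Type} [Group G] (a t : G) (k : ℕ), a * t * a⁻¹ = t ^ k ↔ a * t = t ^ k * a := by
    intro G _ a t k
    constructor
    · intro h
      rw [← h, inv_mul_cancel_right]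
    · intro h
      rw [h, mul_inv_cancel_right]
  refine ⟨?_, ?_⟩
  · tfae_have 4 ↔ 5 := by
      rw [← h45, ← nogap_iff, not_not]
    tfae_have 4 ↔ 6 := by
      rw [← h46, ← nogap_iff, not_not]
    tfae_have 4 → 3 := by
      intro h H _ _ u f hf h23
      have hG : ¬ Pool.Agent.H635F.NoGap := by
        rw [← nogap_iff, not_not]
        exact h
      by_contra hcon
      push Not at hcon
      exact hG (Pool.Agent.Helper95.FP.noGap_of_unbounded u f
        (fun m n => by rw [← dist_eq_norm]; exact hf m n) (fun n => (h23 n).1)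
        (fun n => (h23 n).2) hcon)
    tfae_have 3 → 2 := by
      intro h H _ _ _ a b t ha hb hat hbt hv
      exact Pool.Agent.Helper95.FP.fix_semi (fun u f hf h23 => h H u f
        (fun m n => by rw [dist_eq_norm]; exact hf m n) h23) a b t ha hb hat hbt hv
    tfae_have 3 → 1 := by
      intro h H _ _ _ a b t hab hat hbt hv
      exact Pool.Agent.Helper95.FP.fix_group (fun u f hf h23 => h H u f
        (fun m n => by rw [dist_eq_norm]; exact hf m n) h23) a b t hab
        ((hconj1 a t 2).1 hat) ((hconj1 b t 3).1 hbt) hv
    tfae_have 2 → 4 := by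
      intro h
      by_contra hcon
      rw [nogap_iff] at hcon
      obtain ⟨H, i1, i2, i3, a, b, t, hab, hat, hbt, hfix⟩ :=
        Pool.Agent.Helper95.FP.exists_action hcon
      obtain ⟨w, hw⟩ := h H a b t a.isometry b.isometry hat hbt ⟨0, map_zero a, map_zero b⟩
      exact hfix w hw
    tfae_have 1 → 4 := by
      intro h
      by_contra hcon
      rw [nogap_iff] at hcon
      obtain ⟨H0, i1, i2, i3, a, b, t, hab, hat, hbt, hfix⟩ :=
        Pool.Agent.Helper95.FP.exists_action hcon
      obtain ⟨H, j1, j2, j3, a', b', t', hab', hat', hbt', hv, hfix'⟩ :=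
        Pool.Agent.Helper95.FP.ext_group a b t hab hat hbt hfix
      obtain ⟨w, -, -, hw⟩ := h H a' b' t' hab' ((hconj1 a' t' 2).2 hat') ((hconj1 b' t' 3).2 hbt') hv
      exact hfix' w hw
    tfae_finish
  · intro hF H _ _ _ a b t hab hat hbt hv
    have hG : ¬ Pool.Agent.H635F.NoGap := by
      rw [h46, furst_iff hF]
      intro hd
      obtain ⟨x, hx⟩ := hd.nonempty_iff.2 ⟨⟨Pool.Agent.H635F.d0,
        (Pool.Agent.H635F.inv_iff _).1 Pool.Agent.H635F.inv_d0⟩⟩
      exact hx
    exact Pool.Agent.Helper95.FP.fix_group (hbdd H hG) a b t hab (hconj2 a t 2 hat)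
      (hconj2 b t 3 hbt) hv

end Pool.Agent.Results.MP_e27144_an.FixedPoint
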