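import Pool.Agent.Helper33.HP.Univ

/-!
For a measure invariant under `x ↦ p x` other than Lebesgue measure, the images under `x ↦ ℓ x`, `ℓ` a
prime with `ℓ ^ 2 ∤ p ^ (ℓ - 1) - 1`, stay at a positive distance (explicit, in total variation) from
their translates by `1 / ℓ`. Consequence: a universal set of primes (all but a proportion `η` of the
primes, the same set for all `p` and all measures) such that Hecke relations of bounded rank at
infinitely many primes of the set force Lebesgue measure.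
-/

set_option autoImplicit false

open MeasureTheory Filter Topology Set
open scoped ENNReal

namespace Pool.Agent.Results.MP_e27144_an.HeckePrimes

open Pool.Agent.K3h68.IL Pool.Agent.Helper33.HP

/-- **Hecke relations along primes.**

Part A. Let `μ` be any probability measure on the circle invariant under `x ↦ p x` (atoms allowed).

* (Inequality) If `m` divides `c`, `p ^ o = 1 + c k`, `a k` is coprime to `m`, and the image `D` of `μ`
  under `x ↦ c x` satisfies `D(A) ≤ D(A - 1 / m) + ε` for all Borel sets `A`, then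
  `J |μ^(a)| ^ 2 ≤ 1 + J ^ 2 ε` for all `J ≤ m`.
* (Gap) Let `ℓ` be a prime with `ℓ ∤ a`, `ℓ |μ^(a)| ^ 2 ≥ 3` and let `ℓ ^ v`, `v ≥ 1`, be the exact
  power of `ℓ` dividing `p ^ (ℓ - 1) - 1` (so `v = 1` if `ℓ` is not a Wieferich prime in base `p`).
  Then the image of `μ` under `x ↦ ℓ ^ v x` and its translate by `1 / ℓ` differ by at least
  `|μ^(a)| ^ 4 / 5` on some Borel set.

Part B. For every `η > 0` there is one set `C` of primes, missing at most the proportion `η` of the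
primes below `N` for every `N`, such that for every `p ≥ 2` and every atomless probability measure
`μ ≠ λ` invariant under `x ↦ p x`, every infinite set `S ⊆ C` (however sparse) of primes `ℓ` with
`ℓ ^ 2 ∤ p ^ (ℓ - 1) - 1`, and any finitely many finite measures `ν 1, …, ν r`, it is impossible that
for all `ℓ` in `S` the coefficients `μ^(ℓ n)`, `n` prime to `ℓ`, are a linear combination of the
coefficients `ν i^(n)` (with arbitrary coefficients that depend on `ℓ`). -/
theorem result :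
    (∀ (p : ℕ) (μ : Measure UnitAddCircle), IsProbabilityMeasure μ →
      MeasurePreserving (fun x : UnitAddCircle => p • x) μ μ →
      (∀ (c m o : ℕ) (k a : ℤ) (ε : ℝ) (J : ℕ), 0 < m → m ∣ c → (p : ℤ) ^ o = 1 + c * k →
        IsCoprime (a * k) (m : ℤ) → 0 ≤ ε → J ≤ m →
        (∀ A : Set UnitAddCircle, MeasurableSet A → μ.real {x | c • x ∈ A} ≤
          μ.real {x | c • x + (((1 : ℝ) / m : ℝ) : UnitAddCircle) ∈ A} + ε) →
        J * ‖∫ x, (fourier a x : ℂ) ∂μ‖ ^ 2 ≤ 1 + (J : ℝ) ^ 2 * ε) ∧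
      (∀ (l v : ℕ) (a : ℤ), l.Prime → 1 ≤ v → ((l ^ v : ℕ) : ℤ) ∣ (p : ℤ) ^ (l - 1) - 1 →
        ¬ ((l ^ (v + 1) : ℕ) : ℤ) ∣ (p : ℤ) ^ (l - 1) - 1 → ¬ (l : ℤ) ∣ a →
        3 ≤ l * ‖∫ x, (fourier a x : ℂ) ∂μ‖ ^ 2 →
        ∃ A : Set UnitAddCircle, MeasurableSet A ∧
          μ.real {x | (l ^ v) • x + (((1 : ℝ) / l : ℝ) : UnitAddCircle) ∈ A} +
            ‖∫ x, (fourier a x : ℂ) ∂μ‖ ^ 4 / 5 ≤ μ.real {x | (l ^ v) • x ∈ A})) ∧
    ∀ η : ℝ, 0 < η → ∃ C : Set ℕ, (∀ c ∈ C, c.Prime) ∧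
      (∀ N : ℕ, (Nat.card {c : ℕ | c < N ∧ c.Prime ∧ c ∉ C} : ℝ) ≤
        η * Nat.card {c : ℕ | c < N ∧ c.Prime}) ∧
      ∀ (p : ℕ) (μ : Measure UnitAddCircle), 2 ≤ p → IsProbabilityMeasure μ →
        MeasurePreserving (fun x : UnitAddCircle => p • x) μ μ → (∀ x, μ {x} = 0) →
        ∀ S : Set ℕ, S ⊆ C → S.Infinite → (∀ l ∈ S, ¬ l ^ 2 ∣ p ^ (l - 1) - 1) →
        ∀ (r : ℕ) (ν : Fin r → Measure UnitAddCircle), (∀ i, IsFiniteMeasure (ν i)) →
          (∀ l ∈ S, ∃ g : Fin r → ℂ, ∀ n : ℤ, ¬ (l : ℤ) ∣ n →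
            ∫ x, (fourier ((l : ℤ) * n) x : ℂ) ∂μ =
              ∑ i, g i * ∫ x, (fourier n x : ℂ) ∂(ν i)) →
          μ = volume := by
  refine ⟨fun p μ hμp hμ => ⟨?_, ?_⟩, fun η hη => ?_⟩
  · intro c m o k a ε J hm hmc hk hak hε hJ hD
    exact coef_le_real hμ hm hmc hk hak hε hD hJ
  · intro l v a hl hv hw1 hw2 ha hla
    exact power_gap hμ hl hv hw1 hw2 ha hla
  · obtain ⟨C, h1, h2, h3⟩ := TH463.UR.primes hη
    refine ⟨C, h1, h2, fun p μ hp hμp hμ hat S hSC hS hW r ν hν hrel => ?_⟩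
    have hmix := h3 p hp μ hμp hμ hat
    exact universal h1 hp hμ (fun n hn => lim_of_mixing hmix hn) hSC hS hW ν hν hrel

end Pool.Agent.Results.MP_e27144_an.HeckePrimes
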