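import Pool.Agent.Helper33.HK.Supp

/-!
# The structure of the `×p`-invariant measures with Hecke relations at `q`

Let `p, q ≥ 2` and let `r ≥ 2` be a divisor of `q` which is coprime to `p` (for instance `p = 2`,
`q = r = 3`).  We consider probability measures `μ` which are invariant under `x ↦ p x` only and
whose images `T_{q ^ k} μ` satisfy a weak compactness condition, for instance because the Fourier
coefficients of `μ` satisfy a finite order Hecke relation at `q`.
-/

set_option autoImplicit false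

open MeasureTheory Set Filter Topology

namespace Pool.Agent.Results.MP_e27144_an.HeckeStructure

/-- The image of the measure `μ` under `x ↦ n x`. -/
noncomputable def push (n : ℕ) (μ : Measure UnitAddCircle) : Measure UnitAddCircle :=
  μ.map fun x : UnitAddCircle => n • x

/-- The Fourier coefficient `∫ exp (2 π i n x) dμ(x)`. -/
noncomputable def coef (μ : Measure UnitAddCircle) (n : ℤ) : ℂ := ∫ x, (fourier n x : ℂ) ∂μ

/-- `K` has positive upper Banach density: for some `d > 0` there are arbitrarily long intervals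
`[M, M + N)` which contain at least `d * N` elements of `K`. -/
def PosDensity (K : Set ℕ) : Prop :=
  ∃ d : ℝ, 0 < d ∧ ∀ N₀ : ℕ, ∃ N M : ℕ, N₀ ≤ N ∧ d * N ≤ ((K ∩ Set.Ico M (M + N)).ncard : ℝ)

/-- Finite order Hecke relation at `q` along `K`: on the integers `n` that are not divisible by `r`,
each of the functions `n ↦ coef μ (q ^ k * n)`, `k ∈ K`, is a linear combination of the first `N` of
the functions `n ↦ coef μ (q ^ i * n)`; here `N` does not depend on `k`. -/
def FiniteHecke (q r : ℕ) (μ : Measure UnitAddCircle) (K : Set ℕ) : Prop :=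
  ∃ N : ℕ, ∀ k ∈ K, ∃ c : ℕ → ℂ, ∀ n : ℤ, ¬ (r : ℤ) ∣ n →
    coef μ ((q : ℤ) ^ k * n) = ∑ i ∈ Finset.range N, c i * coef μ ((q : ℤ) ^ i * n)

/-- The positive parts of the differences of `T_{q ^ k} μ` and of its translate by `1 / r`, `k ∈ K`,
are absolutely continuous with respect to one finite measure `m`, uniformly in `k ∈ K`. -/
def UniformlyAC (q r : ℕ) (μ : Measure UnitAddCircle) (K : Set ℕ) : Prop :=
  ∃ m : Measure UnitAddCircle, IsFiniteMeasure m ∧ ∀ ε : ENNReal, 0 < ε → ∃ δ : ENNReal, 0 < δ ∧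
    ∀ k ∈ K, ∀ A : Set UnitAddCircle, MeasurableSet A → m A ≤ δ →
      push (q ^ k) μ A ≤ push (q ^ k) μ {x | x + (((1 : ℝ) / r : ℝ) : UnitAddCircle) ∈ A} + ε

/-- The average of the numbers `T_{q ^ k} μ (A)` over the window `M ≤ k < M + N`. -/
noncomputable def windowAverage (q : ℕ) (μ : Measure UnitAddCircle) (M N : ℕ)
    (A : Set UnitAddCircle) : ℝ :=
  (N : ℝ)⁻¹ * ∑ i ∈ Finset.range N, (push (q ^ (M + i)) μ A).toReal

/-- `μ` is a probability measure on the circle which is invariant under `x ↦ p x` and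
`x ↦ q x`. -/
def JointlyInvariant (p q : ℕ) (μ : Measure UnitAddCircle) : Prop :=
  IsProbabilityMeasure μ ∧ MeasurePreserving (fun x : UnitAddCircle => p • x) μ μ ∧
    MeasurePreserving (fun x : UnitAddCircle => q • x) μ μ

lemma primAC {q r : ℕ} {μ : Measure UnitAddCircle} {K : Set ℕ} :
    UniformlyAC q r μ K ↔ Pool.Agent.Helper33.HK.PrimAC q r μ K := by
  have key : ∀ (k : ℕ) (A : Set UnitAddCircle), MeasurableSet A →
      push (q ^ k) μ A = μ {x | (q ^ k) • x ∈ A} ∧
      push (q ^ k) μ {x | x + (((1 : ℝ) / r : ℝ) : UnitAddCircle) ∈ A} =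
        μ {x | (q ^ k) • x + Pool.Agent.K3h68.IL.uu r ∈ A} := fun k A hA =>
    ⟨Measure.map_apply (Pool.Agent.Helper33.HK.meas_nsmul _) hA,
      Measure.map_apply (Pool.Agent.Helper33.HK.meas_nsmul _) ((measurable_add_const _) hA)⟩
  constructor
  · rintro ⟨m, hm, h⟩
    refine ⟨m, hm, fun ε hε => ?_⟩
    obtain ⟨δ, hδ, h'⟩ := h ε hε
    refine ⟨δ, hδ, fun k hk A hA hmA => ?_⟩
    have := h' k hk A hA hmA
    rwa [(key k A hA).1, (key k A hA).2] at this
  · rintro ⟨m, hm, h⟩
    refine ⟨m, hm, fun ε hε => ?_⟩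
    obtain ⟨δ, hδ, h'⟩ := h ε hε
    refine ⟨δ, hδ, fun k hk A hA hmA => ?_⟩
    rw [(key k A hA).1, (key k A hA).2]
    exact h' k hk A hA hmA

/-- **The structure theorem.**  Let `μ` be a probability measure invariant under `x ↦ p x`; atoms
are allowed, no ergodicity and no entropy is assumed.

(1) A finite order Hecke relation at `q` along a set of positive upper Banach density implies the
condition of the first item of (2).

(2) The following are equivalent.
* For `k` in SOME set of positive upper Banach density, the positive parts of the differences of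
  `T_{q ^ k} μ` and of its translate by `1 / r` are uniformly absolutely continuous.
* The measures `T_{q ^ k} μ`, `k ≥ 0`, are uniformly absolutely continuous with respect to a finite
  measure (that is, they form a relatively weakly compact set in the Banach space of measures).
* There is a jointly invariant `ρ` such that the mass of the part of `T_{q ^ k} μ` which is singular
  to `ρ` tends to zero for `k → ∞`.
* The averages of the measures `T_{q ^ k} μ`, `k < N`, converge in the total variation norm, for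
  `N → ∞`, to a jointly invariant `π`.
* Some sequence of averages of these measures over windows `M ≤ k < M + N` with `N → ∞` converges
  in the total variation norm.

(3) If they hold and `μ` has no atoms then every Borel set `A` of positive `μ`-measure which is mapped
into itself by `x ↦ p x` up to a null set meets every nonempty open set in a set of positive
`μ`-measure.  In particular the support of `μ` is the circle. -/
theorem result (p q r : ℕ) (hp : 2 ≤ p) (hq : 2 ≤ q) (hr : 2 ≤ r) (hrq : r ∣ q)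
    (hrp : Nat.Coprime r p) (μ : Measure UnitAddCircle) (hμ1 : IsProbabilityMeasure μ)
    (hμ : MeasurePreserving (fun x : UnitAddCircle => p • x) μ μ) :
    ((∃ K, PosDensity K ∧ FiniteHecke q r μ K) → ∃ K, PosDensity K ∧ UniformlyAC q r μ K) ∧
    List.TFAE [
      ∃ K, PosDensity K ∧ UniformlyAC q r μ K,
      ∃ m : Measure UnitAddCircle, IsFiniteMeasure m ∧ ∀ ε : ENNReal, 0 < ε → ∃ δ : ENNReal, 0 < δ ∧
        ∀ (k : ℕ) (A : Set UnitAddCircle), MeasurableSet A → m A ≤ δ → push (q ^ k) μ A ≤ ε,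
      ∃ ρ : Measure UnitAddCircle, JointlyInvariant p q ρ ∧
        Tendsto (fun k : ℕ => (push (q ^ k) μ).singularPart ρ univ) atTop (𝓝 0),
      ∃ π : Measure UnitAddCircle, JointlyInvariant p q π ∧ ∀ ε : ℝ, 0 < ε → ∃ N₀ : ℕ, ∀ N ≥ N₀,
        ∀ A, MeasurableSet A → |windowAverage q μ 0 N A - (π A).toReal| ≤ ε,
      ∃ π : Measure UnitAddCircle, IsProbabilityMeasure π ∧ ∀ ε : ℝ, 0 < ε → ∀ N₀ : ℕ, ∃ N ≥ N₀,
        ∃ M : ℕ, ∀ A, MeasurableSet A → |windowAverage q μ M N A - (π A).toReal| ≤ ε] ∧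
    ((∃ K, PosDensity K ∧ UniformlyAC q r μ K) → (∀ x, μ {x} = 0) →
      ∀ A : Set UnitAddCircle, MeasurableSet A → 0 < μ A → (∀ᵐ x ∂μ, x ∈ A → p • x ∈ A) →
        ∀ U : Set UnitAddCircle, IsOpen U → U.Nonempty → 0 < μ (A ∩ U)) := by
  refine ⟨?_, ?_, ?_⟩
  · rintro ⟨K, hK, hac⟩
    exact ⟨K, hK, primAC.2 (Pool.Agent.Helper33.HK.primAC_of_heckeFin (by omega) hac)⟩
  · tfae_have 1 → 3 := by
      rintro ⟨K, hK, hac⟩
      obtain ⟨ρ, h1, h2, h3, h4⟩ := Pool.Agent.Helper33.HK.asym_of_primAC hp hq hr hrq hrp hμ hK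
        (primAC.1 hac)
      exact ⟨ρ, ⟨h1, h2, h3⟩, h4⟩
    tfae_have 3 → 2 := by
      rintro ⟨ρ, ⟨h1, h2, h3⟩, h4⟩
      obtain ⟨m, hm, hmδ⟩ := Pool.Agent.Helper33.HK.uac_of_asym hq ⟨ρ, h1, h2, h3, h4⟩
      refine ⟨m, hm, fun ε hε => ?_⟩
      obtain ⟨δ, hδ, hδ'⟩ := hmδ ε hε
      exact ⟨δ, hδ, fun k A hA hmA => hδ' k (mem_univ k) A hA hmA⟩
    tfae_have 2 → 1 := by
      rintro ⟨m, hm, hmδ⟩
      refine ⟨univ, Pool.Agent.Helper33.HK.posDensity_univ, m, hm, fun ε hε => ?_⟩
      obtain ⟨δ, hδ, hδ'⟩ := hmδ ε hε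
      exact ⟨δ, hδ, fun k _ A hA hmA => (hδ' k A hA hmA).trans le_add_self⟩
    tfae_have 3 → 4 := by
      rintro ⟨ρ, ⟨h1, h2, h3⟩, h4⟩
      obtain ⟨π, g1, g2, g3, g4⟩ := Pool.Agent.Helper33.HK.normConv_of_asym hq hμ
        ⟨ρ, h1, h2, h3, h4⟩
      exact ⟨π, ⟨g1, g2, g3⟩, g4⟩
    tfae_have 4 → 5 := by
      rintro ⟨π, ⟨h1, -, -⟩, h4⟩
      refine ⟨π, h1, fun ε hε N₀ => ?_⟩
      obtain ⟨N₁, hN₁⟩ := h4 ε hε
      exact ⟨max N₀ N₁, le_max_left _ _, 0, hN₁ _ (le_max_right _ _)⟩
    tfae_have 5 → 3 := by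
      rintro ⟨π, h1, h4⟩
      obtain ⟨ρ, g1, g2, g3, g4⟩ := Pool.Agent.Helper33.HK.asym_of_someConv hμ ⟨π, h1, h4⟩
      exact ⟨ρ, ⟨g1, g2, g3⟩, g4⟩
    tfae_finish
  · rintro ⟨K, hK, hac⟩ hna A hA hApos hAinv U hU hUne
    exact Pool.Agent.Helper33.HK.supp_full hp hq hr hrq hrp hμ hna hK (primAC.1 hac) hA hApos hAinv
      hU hUne

end Pool.Agent.Results.MP_e27144_an.HeckeStructure
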