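import Mathlib
import Pool.Agent.Helper95.FP.Grow

set_option autoImplicit false

open MeasureTheory Filter Topology

namespace Pool.Agent.Results.MP_e27144_an.SlowCocycles

universe u

/-- **Invariant Hilbert metrics on the integers grow slower than any power of the logarithm.**
Let `p, q ≥ 2` with `log p / log q` irrational.  There is `0 ≤ κ₀ < 1`, with `κ₀ = 0` if `p, q` are
products of powers of two coprime integers (for instance if `p, q` are coprime), such that for every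
`κ > κ₀` there is a constant `C` with the following properties (no entropy, ergodicity or Fourier
decay assumption, nothing about measures is assumed).
(1) Let `d (m, n) = f (m - n)` be a translation invariant metric on the integers induced by a map
into a Hilbert space, with `f (p n) = f (n) = f (q n)`.  Then `f (n) ^ 2 ≤ C (log |n|) ^ κ f (1) ^ 2`
for `|n| ≥ 3`.
(2) Let `t` be a bijective isometry of a Hilbert space and `a`, `b` distance preserving maps with
`a t = t ^ p a`, `b t = t ^ q b`.  If `a`, `b` fix the point `v` then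
`‖t ^ n v - v‖ ^ 2 ≤ C (log |n|) ^ κ ‖t v - v‖ ^ 2` for `|n| ≥ 3`.
For `p = 2`, `q = 3` this concerns the isometric actions of the group `ℤ[1/6] ⋊ ℤ²` for which `ℤ²`
fixes a point. -/
theorem result (p q : ℕ) (hp : 2 ≤ p) (hq : 2 ≤ q)
    (hpq : Irrational (Real.log (p : ℝ) / Real.log (q : ℝ))) :
    ∃ κ₀ : ℝ, 0 ≤ κ₀ ∧ κ₀ < 1 ∧
      ((∃ u v a b c d : ℕ, 2 ≤ u ∧ 2 ≤ v ∧ Nat.Coprime u v ∧ p = u ^ a * v ^ b ∧
        q = u ^ c * v ^ d ∧ a * d ≠ b * c) → κ₀ = 0) ∧
      ∀ κ : ℝ, κ₀ < κ → ∃ C : ℝ, ∀ (H : Type u) [NormedAddCommGroup H] [InnerProductSpace ℝ H],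
        (∀ (x : ℤ → H) (f : ℤ → ℝ), (∀ m n, dist (x m) (x n) = f (m - n)) →
          (∀ n, f (p * n) = f n ∧ f (q * n) = f n) →
          ∀ n : ℤ, 3 ≤ |n| → f n ^ 2 ≤ C * Real.log |(n : ℝ)| ^ κ * f 1 ^ 2) ∧
        (∀ (a b : H → H) (t : H ≃ᵢ H), Isometry a → Isometry b →
          (∀ y, a (t y) = (t ^ p) (a y)) → (∀ y, b (t y) = (t ^ q) (b y)) →
          ∀ v, a v = v → b v = v → ∀ n : ℤ, 3 ≤ |n| →
            dist ((t ^ n) v) v ^ 2 ≤ C * Real.log |(n : ℝ)| ^ κ * dist (t v) v ^ 2) := by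
  obtain ⟨κ₀, h0, h1, h2, hNC⟩ := Pool.Agent.TH461.FGK.nc hp hq hpq
  refine ⟨κ₀, h0, h1, fun h => h2 h, fun κ hκ => ?_⟩
  obtain ⟨C, hC0, hC⟩ := Pool.Agent.Helper95.FP.grow (q := q) hp (lt_of_le_of_lt h0 hκ) (hNC κ hκ)
  refine ⟨C, fun H _ _ => ⟨fun x f hf hpq n hn => ?_, fun a b t ha hb hat hbt v hav hbv n hn => ?_⟩⟩
  · exact hC H x f (fun m n => by rw [← dist_eq_norm]; exact hf m n) hpq n hn
  · have h := hC H (fun n => (t ^ n) v) (fun n => ‖(t ^ n) v - v‖)
      (fun m n => Pool.Agent.Helper95.FP.dist_orbit t v m n) (fun n => ?_) n hn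
    · simpa [dist_eq_norm] using h
    · have e1 := Pool.Agent.Helper95.FP.inter_zpow a t p hat n v
      have e2 := Pool.Agent.Helper95.FP.inter_zpow b t q hbt n v
      rw [hav] at e1
      rw [hbv] at e2
      constructor
      · change ‖(t ^ ((p : ℤ) * n)) v - v‖ = _
        rw [← e1, ← dist_eq_norm, ← dist_eq_norm]
        calc dist (a ((t ^ n) v)) v = dist (a ((t ^ n) v)) (a v) := by rw [hav]
          _ = _ := ha.dist_eq _ _
      · change ‖(t ^ ((q : ℤ) * n)) v - v‖ = _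
        rw [← e2, ← dist_eq_norm, ← dist_eq_norm]
        calc dist (b ((t ^ n) v)) v = dist (b ((t ^ n) v)) (b v) := by rw [hbv]
          _ = _ := hb.dist_eq _ _

end Pool.Agent.Results.MP_e27144_an.SlowCocycles
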